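import Pool.Agent.Run7.h940.PACH.Iface

/-!
# PACH, piece FLAG: the recursive choice
-/

set_option autoImplicit false

namespace Run7.h929.PACH

open Finset Module Run7.h940.PACH

variable {d : ℕ} {α : Type}

/-- the index -/
def idx (d j : ℕ) : Fin (d + 1) := ⟨min j d, by omega⟩

open Classical in
/-- the weights -/
noncomputable def MM (Bad : (Fin d → ℤ) → Set (Fin (d + 1) → α))
    (ch : Fin (d + 1) → ((Fin (d + 1) → α) → ℝ) → α) :
    ℕ → (Fin d → ℤ) → ((Fin (d + 1) → α) → ℝ)
  | 0 => fun z y => if y ∈ Bad z then 1 else 0
  | (j + 1) => fun z y => ∑ i ∈ univ.filter (fun i => Odd (z i)),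
      (MM Bad ch j (z + Pi.single i 1)
          (Function.update y (idx d j) (ch (idx d j) (MM Bad ch j (z + Pi.single i 1)))) +
       MM Bad ch j (z - Pi.single i 1)
          (Function.update y (idx d j) (ch (idx d j) (MM Bad ch j (z - Pi.single i 1)))))

theorem MM_nonneg (Bad : (Fin d → ℤ) → Set (Fin (d + 1) → α))
    (ch : Fin (d + 1) → ((Fin (d + 1) → α) → ℝ) → α) (j : ℕ) :
    ∀ z y, 0 ≤ MM Bad ch j z y := by
  induction j with
  | zero =>
    intro z y
    unfold MM
    split_ifs <;> norm_num
  | succ j ih =>
    intro z y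
    unfold MM
    exact Finset.sum_nonneg fun i _ => add_nonneg (ih _ _) (ih _ _)

theorem rk_add (z : Fin d → ℤ) (i : Fin d) (hi : Odd (z i)) (t : ℤ) (ht : Odd t) :
    rk (z + Pi.single i t) + 1 = rk z := by
  unfold rk
  have h1 : (univ.filter fun k => Odd ((z + Pi.single i t : Fin d → ℤ) k)) =
      (univ.filter fun k => Odd (z k)).erase i := by
    ext k
    rw [Finset.mem_filter, Finset.mem_erase, Finset.mem_filter]
    by_cases hk : k = i
    · subst hk
      rw [Pi.add_apply, Pi.single_eq_same]
      constructor
      · rintro ⟨-, h⟩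
        exact absurd h (by rw [Int.not_odd_iff_even]; exact hi.add_odd ht)
      · rintro ⟨h, -⟩
        exact absurd rfl h
    · rw [Pi.add_apply, Pi.single_eq_of_ne hk, add_zero]
      simp [hk]
  rw [h1]
  exact Finset.card_erase_add_one (Finset.mem_filter.mpr ⟨Finset.mem_univ _, hi⟩)

theorem face_eq (z' z : Fin d → ℤ) (hf : Face z' z) (hr : rk z' + 1 = rk z) :
    ∃ i, Odd (z i) ∧ (z' = z + Pi.single i 1 ∨ z' = z - Pi.single i 1) := by
  classical
  -- the set of the different coordinates
  have hsub : (univ.filter fun k => Odd (z' k)) ⊆ (univ.filter fun k => Odd (z k)) := by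
    intro k hk
    rw [Finset.mem_filter] at hk ⊢
    refine ⟨hk.1, ?_⟩
    rcases hf k with h | h
    · rw [← h]; exact hk.2
    · exact h.1
  have hcard : ((univ.filter fun k => Odd (z k)) \ (univ.filter fun k => Odd (z' k))).card = 1 := by
    rw [Finset.card_sdiff_of_subset hsub]
    unfold rk at hr
    omega
  obtain ⟨i, hi⟩ := Finset.card_eq_one.mp hcard
  have hi1 : i ∈ (univ.filter fun k => Odd (z k)) \ (univ.filter fun k => Odd (z' k)) := by
    rw [hi]; exact Finset.mem_singleton_self _
  rw [Finset.mem_sdiff, Finset.mem_filter, Finset.mem_filter] at hi1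
  have hodd : Odd (z i) := hi1.1.2
  have hne : ¬ Odd (z' i) := fun h => hi1.2 ⟨Finset.mem_univ _, h⟩
  have hother : ∀ k, k ≠ i → z' k = z k := by
    intro k hk
    rcases hf k with h | ⟨h1, h2⟩
    · exact h
    · exfalso
      apply hk
      have h3 : ¬ Odd (z' k) := by
        rcases (abs_eq (by norm_num)).mp h2 with h | h
        · have : z' k = z k + 1 := by omega
          rw [this, Int.not_odd_iff_even]
          exact h1.add_odd odd_one
        · have : z' k = z k + (-1) := by omega
          rw [this, Int.not_odd_iff_even]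
          exact h1.add_odd (by decide)
      have h4 : k ∈ (univ.filter fun k => Odd (z k)) \ (univ.filter fun k => Odd (z' k)) := by
        rw [Finset.mem_sdiff, Finset.mem_filter, Finset.mem_filter]
        exact ⟨⟨Finset.mem_univ _, h1⟩, fun h => h3 h.2⟩
      rw [hi, Finset.mem_singleton] at h4
      exact h4
  refine ⟨i, hodd, ?_⟩
  rcases hf i with h | ⟨-, h2⟩
  · rw [h] at hne
    exact absurd hodd hne
  · rcases (abs_eq (by norm_num)).mp h2 with h | h
    · left
      funext k
      by_cases hk : k = i
      · subst hk
        rw [Pi.add_apply, Pi.single_eq_same]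
        omega
      · rw [Pi.add_apply, Pi.single_eq_of_ne hk, add_zero, hother k hk]
    · right
      funext k
      by_cases hk : k = i
      · subst hk
        rw [Pi.sub_apply, Pi.single_eq_same]
        omega
      · rw [Pi.sub_apply, Pi.single_eq_of_ne hk, sub_zero, hother k hk]

theorem t_FLAG : S_AVG → S_FLAG := by
  classical
  intro hAVG d α C Bad hC hB
  have hch : ∀ (i : Fin (d + 1)) (f : (Fin (d + 1) → α) → ℝ), ∃ a, a ∈ C i ∧
      ∑ y ∈ Fintype.piFinset C, f (Function.update y i a) ≤ ∑ y ∈ Fintype.piFinset C, f y := by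
    intro i f
    obtain ⟨a, ha, h⟩ := hAVG (Fin (d + 1)) α C i f hC
    exact ⟨a, ha, h⟩
  choose ch hchm hchle using hch
  obtain ⟨x, hx⟩ : ∃ x : (Fin d → ℤ) → α,
      ∀ z, x z = ch (idx d (rk z)) (MM Bad ch (rk z) z) := ⟨_, fun _ => rfl⟩
  have hrkle : ∀ z : Fin d → ℤ, rk z ≤ d := by
    intro z
    unfold rk
    exact (Finset.card_le_univ _).trans (by rw [Fintype.card_fin])
  have hidx : ∀ j, j ≤ d → ((idx d j : Fin (d + 1)) : ℕ) = j := by
    intro j hj
    unfold idx
    simp [hj]
  -- the estimates
  have hest : ∀ j, ∀ z : Fin d → ℤ, rk z = j →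
      (2 ^ d * d.factorial : ℝ) * (∑ y ∈ Fintype.piFinset C, MM Bad ch j z y) <
        ((Fintype.piFinset C).card : ℝ) * (2 ^ j * j.factorial) := by
    intro j
    induction j with
    | zero =>
      intro z _
      have h1 : ∑ y ∈ Fintype.piFinset C, MM Bad ch 0 z y =
          (({y ∈ (Fintype.piFinset C : Set (Fin (d + 1) → α)) | y ∈ Bad z}).ncard : ℝ) := by
        unfold MM
        rw [Finset.sum_boole]
        congr 1
        rw [← Set.ncard_coe_finset]
        congr 1
        ext y
        simp
      rw [h1]
      have h2 := hB z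
      have h3 : ((2 ^ d * d.factorial * ({y ∈ (Fintype.piFinset C : Set (Fin (d + 1) → α)) | y ∈ Bad z}).ncard : ℕ) : ℝ)
          < ((Fintype.piFinset C).card : ℝ) := by exact_mod_cast h2
      push_cast at h3
      simpa using h3
    | succ j ih =>
      intro z hz
      have hL : ∀ i t, Odd (z i) → Odd t →
          (2 ^ d * d.factorial : ℝ) * (∑ y ∈ Fintype.piFinset C, MM Bad ch j (z + Pi.single i t)
            (Function.update y (idx d j) (ch (idx d j) (MM Bad ch j (z + Pi.single i t))))) <
          ((Fintype.piFinset C).card : ℝ) * (2 ^ j * j.factorial) := by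
        intro i t hi ht
        have h1 : rk (z + Pi.single i t) = j := by
          have := rk_add z i hi t ht
          omega
        refine lt_of_le_of_lt ?_ (ih _ h1)
        exact mul_le_mul_of_nonneg_left (hchle _ _) (by positivity)
      unfold MM
      rw [Finset.sum_comm, Finset.mul_sum]
      have hne : (univ.filter (fun i => Odd (z i))).Nonempty := by
        rw [← Finset.card_pos]
        unfold rk at hz
        omega
      have h2 : ∑ i ∈ univ.filter (fun i => Odd (z i)), (2 ^ d * d.factorial : ℝ) *
          ∑ y ∈ Fintype.piFinset C,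
          (MM Bad ch j (z + Pi.single i 1)
            (Function.update y (idx d j) (ch (idx d j) (MM Bad ch j (z + Pi.single i 1)))) +
          MM Bad ch j (z - Pi.single i 1)
            (Function.update y (idx d j) (ch (idx d j) (MM Bad ch j (z - Pi.single i 1))))) <
          ∑ i ∈ univ.filter (fun i => Odd (z i)),
            (((Fintype.piFinset C).card : ℝ) * (2 ^ j * j.factorial) +
              ((Fintype.piFinset C).card : ℝ) * (2 ^ j * j.factorial)) := by
        apply Finset.sum_lt_sum_of_nonempty hne
        intro i hi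
        have hio : Odd (z i) := (Finset.mem_filter.mp hi).2
        rw [Finset.sum_add_distrib, mul_add]
        apply add_lt_add (hL i 1 hio odd_one)
        have h3 := hL i (-1) hio (by decide)
        have h4 : z + Pi.single i (-1 : ℤ) = z - Pi.single i 1 := by
          rw [Pi.single_neg, sub_eq_add_neg]
        rw [h4] at h3
        exact h3
      refine h2.trans_eq ?_
      rw [Finset.sum_const, nsmul_eq_mul]
      have h5 : (univ.filter (fun i => Odd (z i))).card = j + 1 := hz
      rw [h5, Nat.factorial_succ]
      push_cast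
      ring
  refine ⟨x, ?_, ?_⟩
  · intro z i hzi
    rw [hx z]
    have h1 : idx d (rk z) = i := by
      apply Fin.ext
      rw [hidx _ (hrkle z), hzi]
    rw [h1]
    exact hchm _ _
  · intro w hw hbad
    obtain ⟨hw1, hw2⟩ := hw
    have hxw : ∀ j : Fin (d + 1), x (w j) = ch (idx d j) (MM Bad ch j (w j)) := by
      intro j
      rw [hx, hw1]
    -- the comparison
    have hcmp : ∀ j, (hj : j ≤ d) → ∀ y : Fin (d + 1) → α,
        (if (fun i : Fin (d + 1) => if (i : ℕ) ≤ j then x (w i) else y i) ∈ Bad (w 0) then (1 : ℝ) else 0) ≤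
          MM Bad ch j (w ⟨j, by omega⟩) (Function.update y (idx d j) (x (w ⟨j, by omega⟩))) := by
      intro j
      induction j with
      | zero =>
        intro hj y
        have h1 : (fun i : Fin (d + 1) => if (i : ℕ) ≤ 0 then x (w i) else y i) =
            Function.update y (idx d 0) (x (w ⟨0, by omega⟩)) := by
          funext i
          by_cases hi : (i : ℕ) ≤ 0
          · have h2 : i = idx d 0 := by
              apply Fin.ext
              rw [hidx 0 (Nat.zero_le _)]
              omega
            rw [if_pos hi, h2, Function.update_self]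
            congr 2
          · have h2 : i ≠ idx d 0 := by
              intro h
              apply hi
              rw [h, hidx 0 (Nat.zero_le _)]
            rw [if_neg hi, Function.update_of_ne h2]
        rw [h1]
        unfold MM
        exact le_rfl
      | succ j ih =>
        intro hj y
        have h1 : (fun i : Fin (d + 1) => if (i : ℕ) ≤ j + 1 then x (w i) else y i) =
            (fun i : Fin (d + 1) => if (i : ℕ) ≤ j then x (w i) else
              (Function.update y (idx d (j + 1)) (x (w ⟨j + 1, by omega⟩))) i) := by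
          funext i
          by_cases hi : (i : ℕ) ≤ j
          · rw [if_pos (by omega), if_pos hi]
          · rw [if_neg hi]
            by_cases hi2 : (i : ℕ) ≤ j + 1
            · have h2 : i = idx d (j + 1) := by
                apply Fin.ext
                rw [hidx _ hj]
                omega
              rw [if_pos hi2]
              have h3 : i = ⟨j + 1, by omega⟩ := by
                apply Fin.ext
                change (i : ℕ) = j + 1
                omega
              rw [← h2, Function.update_self, ← h3]
            · have h2 : i ≠ idx d (j + 1) := by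
                intro h
                apply hi2
                rw [h, hidx _ hj]
              rw [if_neg hi2, Function.update_of_ne h2]
        rw [h1]
        refine (ih (by omega) _).trans ?_
        have hface := hw2 ⟨j, by omega⟩
        have hr1 := hw1 ⟨j, by omega⟩
        have hr2 := hw1 ⟨j + 1, by omega⟩
        have hf' : Face (w ⟨j, by omega⟩) (w ⟨j + 1, by omega⟩) := hface
        obtain ⟨i, hio, hi⟩ := face_eq _ _ hf' (by rw [hr1, hr2])
        have hxj : x (w ⟨j, by omega⟩) = ch (idx d j) (MM Bad ch j (w ⟨j, by omega⟩)) := hxw _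
        rw [hxj]
        conv_rhs => unfold MM
        have hmem : i ∈ univ.filter (fun i => Odd (w ⟨j + 1, by omega⟩ i)) :=
          Finset.mem_filter.mpr ⟨Finset.mem_univ _, hio⟩
        refine le_trans ?_ (Finset.single_le_sum (f := fun i =>
          (MM Bad ch j (w ⟨j + 1, by omega⟩ + Pi.single i 1)
            (Function.update (Function.update y (idx d (j + 1)) (x (w ⟨j + 1, by omega⟩))) (idx d j)
              (ch (idx d j) (MM Bad ch j (w ⟨j + 1, by omega⟩ + Pi.single i 1)))) +
          MM Bad ch j (w ⟨j + 1, by omega⟩ - Pi.single i 1)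
            (Function.update (Function.update y (idx d (j + 1)) (x (w ⟨j + 1, by omega⟩))) (idx d j)
              (ch (idx d j) (MM Bad ch j (w ⟨j + 1, by omega⟩ - Pi.single i 1))))))
          (fun i _ => add_nonneg (MM_nonneg _ _ _ _ _) (MM_nonneg _ _ _ _ _)) hmem)
        rcases hi with hi | hi
        · rw [← hi]
          exact le_add_of_nonneg_right (MM_nonneg _ _ _ _ _)
        · rw [← hi]
          exact le_add_of_nonneg_left (MM_nonneg _ _ _ _ _)
    have hlast : ∀ y : Fin (d + 1) → α, (1 : ℝ) ≤
        MM Bad ch d (w ⟨d, by omega⟩) (Function.update y (idx d d) (x (w ⟨d, by omega⟩))) := by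
      intro y
      refine le_trans ?_ (hcmp d le_rfl y)
      rw [if_pos]
      have h1 : (fun i : Fin (d + 1) => if (i : ℕ) ≤ d then x (w i) else y i) = fun j => x (w j) := by
        funext i
        rw [if_pos (by omega)]
      rw [h1]
      exact hbad
    have h1 := hest d (w ⟨d, by omega⟩) (hw1 _)
    have h2 := hchle (idx d d) (MM Bad ch d (w ⟨d, by omega⟩))
    have hxd : x (w ⟨d, by omega⟩) = ch (idx d d) (MM Bad ch d (w ⟨d, by omega⟩)) := hxw _
    rw [← hxd] at h2
    have h3 : ((Fintype.piFinset C).card : ℝ) ≤ ∑ y ∈ Fintype.piFinset C,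
        MM Bad ch d (w ⟨d, by omega⟩) (Function.update y (idx d d) (x (w ⟨d, by omega⟩))) := by
      have h4 := Finset.card_nsmul_le_sum (Fintype.piFinset C) (fun y =>
        MM Bad ch d (w ⟨d, by omega⟩) (Function.update y (idx d d) (x (w ⟨d, by omega⟩)))) 1
        (fun y _ => hlast y)
      rwa [nsmul_eq_mul, mul_one] at h4
    have h5 : (0 : ℝ) < 2 ^ d * d.factorial := by positivity
    have h6 : ((Fintype.piFinset C).card : ℝ) ≤
        ∑ y ∈ Fintype.piFinset C, MM Bad ch d (w ⟨d, by omega⟩) y := h3.trans h2
    nlinarith [mul_le_mul_of_nonneg_left h6 h5.le]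

end Run7.h929.PACH
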